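import Pool.Agent.TH294.RG.SpecH
import Pool.Agent.TH294.RG.Jc8

/-!
# Joint cubic moments `∫ ψ f² g dμ` of eigenfunctions (MP_a28cf0_nt)

The plane is `ℂ`, with the upper half plane `HH` and `dμ = dx dy / y²`. `dx f z`, `dy f z` are the
partial derivatives `fderiv ℝ f z 1`, `fderiv ℝ f z I`; `TF U φ` says that `φ : ℂ → ℝ` is smooth
with compact support contained in `U`.
-/

set_option autoImplicit false
open MeasureTheory Filter Topology Complex
open scoped ContDiff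

namespace Pool.Agent.Results.MP_a28cf0_nt.JointCubicMoments

open Pool.Agent.W745.RW

/-- the open upper half plane -/
def HH : Set ℂ := {z | 0 < z.im}

/-- the eigenvalue `1/4 + t²` -/
noncomputable def ev (t : ℝ) : ℝ := 1 / 4 + t ^ 2

/-- `f` is a smooth real solution of `-y² (∂x² + ∂y²) f = (1/4 + t²) f` on the upper half plane -/
def Eig (t : ℝ) (f : ℂ → ℝ) : Prop :=
  ContDiffOn ℝ ∞ f HH ∧ ∀ z ∈ HH, -(z.im ^ 2 * (dx (dx f) z + dy (dy f) z)) = ev t * f z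

/-- the operator `f ↦ lam^{-1/2} y (∂x f - i ∂y f)` -/
noncomputable def RO (lam : ℝ) (f : ℂ → ℂ) (z : ℂ) : ℂ :=
  ((z.im / √lam : ℝ) : ℂ) * (dx f z - I * dy f z)

/-- quantum unique ergodicity in microlocal form: `∫ φ f (RO^k f) dμ → ∫ φ dμ` for `k = 0`, and
`→ 0` for `k ≥ 1` -/
def QUE (t : ℕ → ℝ) (f : ℕ → ℂ → ℝ) : Prop :=
  ∀ φ, TF HH φ → ∀ k : ℕ, Tendsto (fun n => ∫ z, ((φ z / z.im ^ 2 : ℝ) : ℂ) *
    ((f n z : ℂ) * (RO (ev (t n)))^[k] (fun w => (f n w : ℂ)) z)) atTop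
    (𝓝 (if k = 0 then ((∫ z, φ z / z.im ^ 2 : ℝ) : ℂ) else 0))

/-- the joint cubic moment `∫ ψ f² g dμ` -/
noncomputable def J (ψ f g : ℂ → ℝ) : ℝ := ∫ z, ψ z * (f z ^ 2 * g z) / z.im ^ 2

/-- the excess `∫ ψ f⁴ dμ - 3 ∫ ψ dμ` of the fourth moment -/
noncomputable def ex (ψ f : ℂ → ℝ) : ℝ :=
  (∫ z, ψ z * f z ^ 4 / z.im ^ 2) - 3 * ∫ z, ψ z / z.im ^ 2

/-- the normalising factor `1 + ∫_K f⁴ dμ` -/
noncomputable def nrm (K : Set ℂ) (f : ℂ → ℝ) : ℝ := 1 + ∫ z in K, f z ^ 4 / z.im ^ 2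

/-- the admissible constants: `c = 2/3` always; `c = 1/3` if the ratio `ev (s n) / ev (t n)` of the
eigenvalues stays away from `0`; `c = 0` if this ratio stays away from `0` and from `4` -/
def Adm (c : ℝ) (t s : ℕ → ℝ) : Prop :=
  c = 2 / 3 ∨ (c = 1 / 3 ∧ ∃ δ : ℝ, 0 < δ ∧ ∀ᶠ n in atTop, δ * ev (t n) ≤ ev (s n)) ∨
    (c = 0 ∧ ∃ δ : ℝ, 0 < δ ∧ ∀ᶠ n in atTop, δ * ev (t n) ≤ ev (s n) ∧
      δ * ev (t n) ≤ |ev (s n) - 4 * ev (t n)|)

lemma ev_pos (t : ℝ) : 0 < ev t := by unfold ev; positivity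

lemma HHo : IsOpen HH := isOpen_lt continuous_const continuous_im

lemma him : ContDiff ℝ ∞ (fun z : ℂ => z.im) := imCLM.contDiff

lemma inv_sqrt_sq {x : ℝ} (hx : 0 < x) : (1 / √x) ^ 2 = 1 / x := by
  rw [div_pow, Real.sq_sqrt hx.le, one_pow]

lemma ev_lim {t : ℕ → ℝ} (ht : Tendsto t atTop atTop) :
    Tendsto (fun n => 1 / √(ev (t n))) atTop (𝓝 0) := by
  have h1 : Tendsto (fun n => ev (t n)) atTop atTop :=
    tendsto_atTop_add_const_left _ _ ((tendsto_pow_atTop two_ne_zero).comp ht)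
  have h2 : Tendsto (fun n => √(ev (t n))) atTop atTop := Real.tendsto_sqrt_atTop.comp h1
  exact (h2.inv_tendsto_atTop).congr (fun n => by simp [one_div])

lemma raw {t : ℕ → ℝ} (ht : Tendsto t atTop atTop) {f : ℕ → ℂ → ℝ}
    (hf : ∀ n, Eig (t n) (f n)) (hqe : QUE t f) :
    Pool.Agent.TH294.RG.RawG HH (fun z => z.im) (fun n => 1 / √(ev (t n))) f
      (Pool.Agent.TH294.RG.MM (fun _ => 1) Pool.Agent.TH294.RG.ea
        Pool.Agent.TH294.RG.unif) := by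
  have hRD : ∀ n, RO (ev (t n)) =
      Pool.Agent.TH294.RS.DP (fun z => z.im) (1 / √(ev (t n))) := by
    intro n
    funext g z
    simp only [RO, Pool.Agent.TH294.RS.DP, Pool.Agent.TH294.RS.dd]
    push_cast
    ring
  refine ⟨fun n => ?_, ev_lim ht, him.contDiffOn, fun z hz => hz, fun n => (hf n).1,
    fun n z hz => ?_, fun φ hφ k => ?_⟩
  · have := ev_pos (t n)
    positivity
  · have h1 := (hf n).2 z hz
    have h2 := inv_sqrt_sq (ev_pos (t n))
    show (1 / √(ev (t n))) ^ 2 * (z.im ^ 2 * (dx (dx (f n)) z + dy (dy (f n)) z)) +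
      f n z = 0
    rw [h2]
    have h3 : z.im ^ 2 * (dx (dx (f n)) z + dy (dy (f n)) z) = - (ev (t n) * f n z) := by
      linarith
    have h4 := (ev_pos (t n)).ne'
    rw [h3]
    field_simp
    ring
  · have hφ' := Pool.Agent.TH294.RS.TF.mulc HHo hφ (him.pow 2).contDiffOn
    have h1 := hqe _ hφ' k
    have e : ∀ z : ℂ, φ z * z.im ^ 2 / z.im ^ 2 = φ z := by
      intro z
      by_cases hz : z ∈ HH
      · have : z.im ≠ 0 := ne_of_gt hz
        field_simp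
      · rw [Pool.Agent.TH294.RS.TF.zero hφ hz]; simp
    simp only [e] at h1
    have e2 : ∫ z, (φ z : ℂ) * Pool.Agent.TH294.RG.MM (fun _ => 1) Pool.Agent.TH294.RG.ea
        Pool.Agent.TH294.RG.unif k z = if k = 0 then ((∫ z, φ z : ℝ) : ℂ) else 0 := by
      simp only [Pool.Agent.TH294.RG.MM_unif]
      split_ifs with hk
      · simp only [mul_one]
        exact integral_complex_ofReal
      · simp
    rw [e2]
    refine h1.congr fun n => ?_
    rw [hRD n]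

lemma cmp_bd {K : Set ℂ} (hK : IsCompact K) (hKH : K ⊆ HH) : ∃ C : ℝ, 0 < C ∧
    ∀ F : ℂ → ℝ, ContinuousOn F K → (∀ z, 0 ≤ F z) →
      ∫ z in K, F z ≤ C * ∫ z in K, F z / z.im ^ 2 := by
  obtain ⟨C, hC⟩ := hK.exists_bound_of_continuousOn
    ((him.continuous.pow 2).continuousOn (s := K))
  refine ⟨|C| + 1, by positivity, fun F hF hF0 => ?_⟩
  have i1 : IntegrableOn F K := hF.integrableOn_compact hK
  have i2 : IntegrableOn (fun z => (|C| + 1) * (F z / z.im ^ 2)) K := by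
    refine ContinuousOn.integrableOn_compact hK ?_
    refine continuousOn_const.mul (hF.div (him.continuous.pow 2).continuousOn fun z hz => ?_)
    have : 0 < z.im := hKH hz
    positivity
  rw [← integral_const_mul]
  refine setIntegral_mono_on i1 i2 hK.measurableSet fun z hz => ?_
  have h3 : 0 < z.im := hKH hz
  have h4 : z.im ^ 2 ≤ |C| + 1 := by
    have h7 : ‖z.im ^ 2‖ ≤ C := hC z hz
    rw [Real.norm_eq_abs, abs_of_nonneg (pow_nonneg h3.le 2)] at h7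
    linarith [le_abs_self C]
  rw [mul_div_assoc', le_div_iff₀ (pow_pos h3 2), mul_comm]
  exact mul_le_mul_of_nonneg_right h4 (hF0 z)

lemma nrm_pos (K : Set ℂ) (f : ℂ → ℝ) : 1 ≤ nrm K f := by
  have : 0 ≤ ∫ z in K, f z ^ 4 / z.im ^ 2 := integral_nonneg fun z => by positivity
  unfold nrm; linarith

lemma nrm_cmp {K : Set ℂ} (hK : IsCompact K) (hKH : K ⊆ HH) : ∃ C : ℝ, 0 < C ∧
    ∀ f : ℂ → ℝ, ContDiffOn ℝ ∞ f HH → 1 + ∫ z in K, f z ^ 4 ≤ C * nrm K f := by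
  obtain ⟨C, hC0, hC⟩ := cmp_bd hK hKH
  refine ⟨1 + C, by linarith, fun f hf => ?_⟩
  have h1 := hC (fun z => f z ^ 4) ((hf.continuousOn.mono hKH).pow 4) (fun z => by positivity)
  have h2 : 0 ≤ ∫ z in K, f z ^ 4 / z.im ^ 2 := integral_nonneg fun z => by positivity
  unfold nrm
  nlinarith

lemma gs {s : ℕ → ℝ} {g : ℕ → ℂ → ℝ} (hg : ∀ n, Eig (s n) (g n))
    (hgb : ∀ K : Set ℂ, IsCompact K → K ⊆ HH →
      ∃ C : ℝ, ∀ᶠ n in atTop, ∫ z in K, g n z ^ 2 / z.im ^ 2 ≤ C) :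
    Pool.Agent.TH294.RG.GS HH (fun z => z.im) (fun n => 1 / √(ev (s n))) (fun _ => 1) 1
      (fun n z => (g n z : ℂ)) := by
  refine ⟨⟨fun n => Pool.Agent.TH294.RS.cxa (hg n).1, fun K hK hKH => ?_⟩, tendsto_const_nhds,
    fun n z hz => ?_⟩
  · obtain ⟨C, hC⟩ := hgb K hK hKH
    obtain ⟨C', hC'0, hC'⟩ := cmp_bd hK hKH
    refine ⟨C' * C, hC.mono fun n hn => ?_⟩
    have e : ∀ z, ‖(g n z : ℂ)‖ ^ 2 = g n z ^ 2 := fun z => by
      rw [norm_real, Real.norm_eq_abs, sq_abs]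
    simp only [e]
    exact (hC' (fun z => g n z ^ 2) (((hg n).1.continuousOn.mono hKH).pow 2)
      (fun z => by positivity)).trans (mul_le_mul_of_nonneg_left hn hC'0.le)
  · have h1 := (hg n).2 z hz
    have h2 := inv_sqrt_sq (ev_pos (s n))
    rw [Pool.Agent.TH294.RS.lap_re HHo (hg n).1 hz]
    have h3 : z.im ^ 2 * lap (g n) z = - (ev (s n) * g n z) := by
      show z.im ^ 2 * (dx (dx (g n)) z + dy (dy (g n)) z) = _
      linarith
    have h4 : (1 / √(ev (s n))) ^ 2 * (z.im ^ 2 * lap (g n) z) = - (1 * g n z) := by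
      rw [h2, h3]
      have := (ev_pos (s n)).ne'
      field_simp
    exact_mod_cast h4

lemma ratio (t s : ℝ) : ((1 / √(ev t)) / (1 / √(ev s))) ^ 2 = ev s / ev t := by
  have h1 := ev_pos t
  have h2 := ev_pos s
  rw [div_pow, inv_sqrt_sq h1, inv_sqrt_sq h2]
  field_simp

lemma tf_div {K : Set ℂ} (hKH : K ⊆ HH) {ψ : ℂ → ℝ} (hψ : TF (interior K) ψ) :
    TF (interior K) (fun z => ψ z * (z.im ^ 2)⁻¹) := by
  have hi : ContDiffOn ℝ ∞ (fun z : ℂ => (z.im ^ 2)⁻¹) HH :=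
    (him.pow 2).contDiffOn.inv fun z hz => by
      have : 0 < z.im := hz
      positivity
  exact Pool.Agent.TH294.RS.TF.mulc isOpen_interior hψ (hi.mono (interior_subset.trans hKH))

lemma mem1 (K : Set ℂ) (hK : IsCompact K) : MemLp (fun _ : ℂ => (1 : ℝ)) 2
    (volume.restrict K) := by
  have : IsFiniteMeasure (volume.restrict K) := ⟨by
    rw [Measure.restrict_apply MeasurableSet.univ, Set.univ_inter]
    exact hK.measure_lt_top⟩
  exact memLp_const 1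

lemma par_unif : Pool.Agent.TH294.RG.par Pool.Agent.TH294.RG.ea Pool.Agent.TH294.RG.mu0 = 0 := by
  unfold Pool.Agent.TH294.RG.par
  rw [measureReal_def, Measure.measure_prod_null (Pool.Agent.TH294.RG.PS_meas
    Pool.Agent.TH294.RG.ea_meas) |>.2]
  · rfl
  · refine ae_of_all _ fun x => ?_
    rw [Pool.Agent.TH294.RG.ea_par]
    have hc : (Prod.mk x ⁻¹' {p : ℝ × ℝ | Real.sin (p.1 - p.2) = 0}).Countable := by
      refine (Set.countable_range (fun k : ℤ => x - k * Real.pi)).mono ?_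
      intro y hy
      have h1 : Real.sin (x - y) = 0 := hy
      obtain ⟨k, hk⟩ := Real.sin_eq_zero_iff.1 h1
      exact ⟨k, by simp only; linarith⟩
    show Pool.Agent.TH294.RG.mu0 _ = 0
    unfold Pool.Agent.TH294.RG.mu0
    rw [Measure.smul_apply, hc.measure_zero, smul_zero]

variable {t s : ℕ → ℝ} {f g : ℕ → ℂ → ℝ} {K : Set ℂ} {ψ : ℂ → ℝ}

theorem partA (ht : Tendsto t atTop atTop) (hs : Tendsto s atTop atTop)
    (hf : ∀ n, Eig (t n) (f n)) (hqe : QUE t f) (hg : ∀ n, Eig (s n) (g n))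
    (hgb : ∀ K : Set ℂ, IsCompact K → K ⊆ HH →
      ∃ C : ℝ, ∀ᶠ n in atTop, ∫ z in K, g n z ^ 2 / z.im ^ 2 ≤ C)
    (hK : IsCompact K) (hKH : K ⊆ HH) (hψ : TF (interior K) ψ) {δ : ℝ} (hδ : 0 < δ)
    (h : ∀ᶠ n in atTop, δ * ev (t n) ≤ ev (s n) ∧
      δ * ev (t n) ≤ |ev (s n) - 4 * ev (t n)|) :
    Tendsto (fun n => J ψ (f n) (g n) / √(nrm K (f n))) atTop (𝓝 0) := by
  have key := Pool.Agent.TH294.RG.joint_off (fun K' hK' _ => mem1 K' hK')
    (ae_of_all _ fun z => by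
      simp only [Pool.Agent.TH294.RG.unif, ProbabilityTheory.Kernel.const_apply]
      exact par_unif) (raw ht hf hqe)
    (fun n => by have := ev_pos (s n); positivity) (ev_lim hs) (gs hg hgb) hδ
    (h.mono fun n hn => by
      rw [ratio, le_div_iff₀ (ev_pos _)]; exact hn.1)
    (h.mono fun n hn => by
      rw [ratio]
      have h1 := ev_pos (t n)
      have e : ev (s n) / ev (t n) - 4 = (ev (s n) - 4 * ev (t n)) / ev (t n) := by
        field_simp
      rw [e, abs_div, abs_of_pos h1, le_div_iff₀ h1]; exact hn.2) hK hKH (tf_div hKH hψ) 0 0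
  obtain ⟨C, hC0, hC⟩ := nrm_cmp hK hKH
  refine Pool.Agent.TH294.RG.nrm_change (A := fun n => √(1 + ∫ z in K, f n z ^ 4)) (C := √C)
    (fun n => ?_) (fun n => ?_) (fun n => ?_) ?_
  · have : 0 ≤ ∫ z in K, f n z ^ 4 := integral_nonneg fun z => by positivity
    positivity
  · have := nrm_pos K (f n)
    positivity
  · rw [← Real.sqrt_mul hC0.le]
    exact Real.sqrt_le_sqrt (hC (f n) (hf n).1)
  · have k2 := (Complex.continuous_re.tendsto _).comp key
    rw [Complex.zero_re] at k2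
    refine k2.congr fun n => ?_
    have e : ∫ z, ((ψ z * (z.im ^ 2)⁻¹ : ℝ) : ℂ) *
        (Pool.Agent.TH294.RS.ww (fun z => z.im) (fun n => 1 / √(ev (t n)))
          (fun n z => (f n z : ℂ)) 0 n z *
        Pool.Agent.TH294.RS.ww (fun z => z.im) (fun n => 1 / √(ev (t n)))
          (fun n z => (f n z : ℂ)) 0 n z * (g n z : ℂ)) = ((J ψ (f n) (g n) : ℝ) : ℂ) := by
      unfold J
      rw [← integral_complex_ofReal]
      congr 1; funext z
      have : Pool.Agent.TH294.RS.ww (fun z => z.im) (fun n => 1 / √(ev (t n)))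
          (fun n z => (f n z : ℂ)) 0 n z = (f n z : ℂ) := rfl
      rw [this]; push_cast; ring
    simp only [Function.comp_def]
    rw [e, ← ofReal_inv, ← ofReal_mul, ofReal_re, inv_mul_eq_div]

theorem partB (ht : Tendsto t atTop atTop) (hs : Tendsto s atTop atTop)
    (hf : ∀ n, Eig (t n) (f n)) (hqe : QUE t f) (hg : ∀ n, Eig (s n) (g n))
    (hgb : ∀ K : Set ℂ, IsCompact K → K ⊆ HH →
      ∃ C : ℝ, ∀ᶠ n in atTop, ∫ z in K, g n z ^ 2 / z.im ^ 2 ≤ C)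
    (hK : IsCompact K) (hKH : K ⊆ HH) (hψ : TF (interior K) ψ) (hψ0 : ∀ z, 0 ≤ ψ z) {c : ℝ}
    (hc : c = 2 / 3 ∨ (c = 1 / 3 ∧ ∃ δ : ℝ, 0 < δ ∧ ∀ᶠ n in atTop, δ * ev (t n) ≤ ev (s n)))
    {ε : ℝ} (hε : 0 < ε) :
    ∀ᶠ n in atTop, J ψ (f n) (g n) ^ 2 ≤
      c * ex ψ (f n) * (∫ z, ψ z * g n z ^ 2 / z.im ^ 2) + ε * nrm K (f n) := by
  obtain ⟨C, hC0, hC⟩ := nrm_cmp hK hKH
  have key := Pool.Agent.TH294.RG.joint_all HHo (fun K' hK' _ => mem1 K' hK') contDiffOn_const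
    (ae_of_all _ fun z => by
      simp only [Pool.Agent.TH294.RG.unif, ProbabilityTheory.Kernel.const_apply]
      exact par_unif) (raw ht hf hqe)
    (fun n => by have := ev_pos (s n); positivity) (ev_lim hs) (gs hg hgb) (c := c)
    (by
      rcases hc with h1 | ⟨h1, δ, hδ, h2⟩
      · exact Or.inl h1
      · refine Or.inr ⟨h1, δ, hδ, h2.mono fun n hn => ?_⟩
        rw [ratio, le_div_iff₀ (ev_pos _)]; exact hn) hK hKH (tf_div hKH hψ)
    (fun z => mul_nonneg (hψ0 z) (by positivity)) (ε := ε / C) (by positivity)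
  refine key.mono fun n hn => ?_
  have e1 : ∫ z, ((ψ z * (z.im ^ 2)⁻¹ : ℝ) : ℂ) * ((f n z : ℂ) ^ 2 * (g n z : ℂ)) =
      ((J ψ (f n) (g n) : ℝ) : ℂ) := by
    unfold J
    rw [← integral_complex_ofReal]
    congr 1; funext z
    push_cast; ring
  have e2 : (∫ z, ψ z * (z.im ^ 2)⁻¹ * f n z ^ 4) - 3 * (∫ z, ψ z * (z.im ^ 2)⁻¹ * (1 : ℝ) ^ 2) =
      ex ψ (f n) := by
    unfold ex
    congr 1
    · congr 1; funext z; ring
    · congr 2; funext z; ring
  have e3 : ∫ z, ψ z * (z.im ^ 2)⁻¹ * ‖(g n z : ℂ)‖ ^ 2 = ∫ z, ψ z * g n z ^ 2 / z.im ^ 2 := by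
    congr 1; funext z
    rw [norm_real, Real.norm_eq_abs, sq_abs]; ring
  rw [e1, e2, e3, norm_real, Real.norm_eq_abs, sq_abs] at hn
  refine hn.trans ?_
  have h1 := mul_le_mul_of_nonneg_left (hC (f n) (hf n).1) (show 0 ≤ ε / C by positivity)
  have e4 : ε / C * (C * nrm K (f n)) = ε * nrm K (f n) := by field_simp
  linarith

/-- **Result.** Let `f n`, `g n` be real eigenfunctions of the hyperbolic Laplacian on the upper
half plane, with spectral parameters `t n → ∞` and `s n → ∞`; the `f n` satisfy microlocal quantum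
unique ergodicity, and the `g n` are bounded in `L²(K', dμ)` for every compact `K'`. Let `K` be
compact and `ψ ≥ 0` a test function supported in the interior of `K`. Then
`(∫ ψ f² g dμ)² ≤ c (∫ ψ f⁴ dμ - 3 ∫ ψ dμ) (∫ ψ g² dμ) + o(1 + ∫_K f⁴ dμ)`,
where `c = 2/3`, or `c = 1/3` if the ratio of the eigenvalues of `g` and `f` stays away from `0`,
or `c = 0` if it stays away from `0` and from `4`. -/
theorem result (t s : ℕ → ℝ) (ht : Tendsto t atTop atTop) (hs : Tendsto s atTop atTop)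
    (f g : ℕ → ℂ → ℝ) (hf : ∀ n, Eig (t n) (f n)) (hg : ∀ n, Eig (s n) (g n))
    (hqe : QUE t f)
    (hgb : ∀ K' : Set ℂ, IsCompact K' → K' ⊆ HH →
      ∃ C : ℝ, ∀ᶠ n in atTop, ∫ z in K', g n z ^ 2 / z.im ^ 2 ≤ C)
    (K : Set ℂ) (hK : IsCompact K) (hKH : K ⊆ HH) (ψ : ℂ → ℝ) (hψ : TF (interior K) ψ)
    (hψ0 : ∀ z, 0 ≤ ψ z) (c : ℝ) (hc : Adm c t s) (ε : ℝ) (hε : 0 < ε) :
    ∀ᶠ n in atTop, J ψ (f n) (g n) ^ 2 ≤
      c * ex ψ (f n) * (∫ z, ψ z * g n z ^ 2 / z.im ^ 2) + ε * nrm K (f n) := by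
  rcases hc with h1 | h1 | ⟨h1, δ, hδ, h2⟩
  · exact partB ht hs hf hqe hg hgb hK hKH hψ hψ0 (Or.inl h1) hε
  · exact partB ht hs hf hqe hg hgb hK hKH hψ hψ0 (Or.inr h1) hε
  · have key := partA ht hs hf hqe hg hgb hK hKH hψ hδ h2
    have k2 := (key.pow 2).eventually (gt_mem_nhds (show (0 : ℝ) ^ 2 < ε by
      rw [zero_pow two_ne_zero]; exact hε))
    refine k2.mono fun n hn => ?_
    have hN : 0 < nrm K (f n) := by linarith [nrm_pos K (f n)]
    rw [div_pow, Real.sq_sqrt hN.le, div_lt_iff₀ hN] at hn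
    rw [h1, zero_mul, zero_mul, zero_add]
    exact hn.le

end Pool.Agent.Results.MP_a28cf0_nt.JointCubicMoments
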