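import Pool.Agent.TH421.DF.Sep

/-!
# Joint moments of eigenfunctions with separated frequencies (MP_a28cf0_nt)

The plane is `ℂ`, with the upper half plane `HH` and `dμ = dx dy / y²`.
-/

set_option autoImplicit false
open MeasureTheory Filter Topology Complex
open scoped ContDiff

namespace Pool.Agent.Results.MP_a28cf0_nt.SeparatedFrequencies

noncomputable section

/-- the open upper half plane -/
def HH : Set ℂ := {z | 0 < z.im}

/-- the Laplacian `∂x² + ∂y²` -/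
def lapl (f : ℂ → ℝ) (z : ℂ) : ℝ :=
  fderiv ℝ (fun w => fderiv ℝ f w 1) z 1 + fderiv ℝ (fun w => fderiv ℝ f w I) z I

/-- `f` is a smooth real solution of `-y² (∂x² + ∂y²) f = r² f` on the upper half plane -/
def Eig (r : ℝ) (f : ℂ → ℝ) : Prop :=
  ContDiffOn ℝ ∞ f HH ∧ ∀ z ∈ HH, -(z.im ^ 2 * lapl f z) = r ^ 2 * f z

/-- the sequence `f` is locally bounded in `L²` -/
def LocL2 (f : ℕ → ℂ → ℝ) : Prop :=
  ∀ K : Set ℂ, IsCompact K → K ⊆ HH → ∃ C : ℝ, ∀ᶠ n in atTop, ∫ z in K, f n z ^ 2 ≤ C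

/-- test functions: smooth, with compact support contained in the upper half plane -/
def Test (ψ : ℂ → ℝ) : Prop := ContDiff ℝ ∞ ψ ∧ HasCompactSupport ψ ∧ tsupport ψ ⊆ HH

open Pool.Agent.TH421.DF Pool.Agent.TH294.RS Pool.Agent.TH294.RG

lemma lbc {f : ℕ → ℂ → ℝ} (hs : ∀ n, ContDiffOn ℝ ∞ (f n) HH) (hf : LocL2 f) :
    LB HP 2 (fun n z => (f n z : ℂ)) := by
  refine ⟨fun n => Complex.ofRealCLM.contDiff.comp_contDiffOn (hs n), fun K hK hKB => ?_⟩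
  obtain ⟨C, hC⟩ := hf K hK hKB
  refine ⟨C, hC.mono fun n hn => ?_⟩
  simpa only [Complex.norm_real, Real.norm_eq_abs, sq_abs] using hn

lemma eigc {r : ℝ} {f : ℂ → ℝ} (hf : Eig r f) {z : ℂ} (hz : z ∈ HP) :
    (z.im : ℂ) ^ 2 * Pool.Agent.W745.RW.lap (fun w => (f w : ℂ)) z =
      -((r : ℂ) ^ 2 * (f z : ℂ)) := by
  rw [lap_re HPo hf.1 hz]
  have h1 := hf.2 z hz
  have h2 : z.im ^ 2 * Pool.Agent.W745.RW.lap f z = -(r ^ 2 * f z) := by
    have : lapl f z = Pool.Agent.W745.RW.lap f z := rfl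
    rw [← this]; linarith
  exact_mod_cast h2

/-- semiclassical form of the equation -/
lemma eigk {h : ℕ → ℝ} {r : ℕ → ℝ} {f : ℕ → ℂ → ℝ} (hf : ∀ n, Eig (r n) (f n)) (n : ℕ) {z : ℂ}
    (hz : z ∈ HP) : (z.im : ℂ) ^ 2 * Pool.Agent.TH294.RS.hL h (fun n z => (f n z : ℂ)) n z =
      -(((h n ^ 2 * r n ^ 2 : ℝ) : ℂ) * (f n z : ℂ)) := by
  have h1 := eigc (hf n) hz
  simp only [Pool.Agent.TH294.RS.hL]
  push_cast
  linear_combination ((h n : ℂ) ^ 2) * h1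

lemma mk_eig {h : ℕ → ℝ} (hp : ∀ n, 0 < h n) (hh : Tendsto h atTop (𝓝 0)) {r : ℕ → ℝ}
    {f : ℕ → ℂ → ℝ} (hf : ∀ n, Eig (r n) (f n)) (hb : LocL2 f)
    (hr : ∀ᶠ n in atTop, h n * |r n| ≤ 1) (k : ℕ) : MK2 HP h k (fun n z => (f n z : ℂ)) := by
  refine mk_sol HPo hp hh (lbc (fun n => (hf n).1) hb) iy_cd
    (c := fun n => h n ^ 2 * r n ^ 2) (M := 1) ?_ ?_ k
  · filter_upwards [hr] with n hn
    have h4 : h n ^ 2 * r n ^ 2 = (h n * |r n|) ^ 2 := by rw [mul_pow, sq_abs]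
    show |h n ^ 2 * r n ^ 2| ≤ 1
    rw [abs_of_nonneg (by positivity), h4]
    exact pow_le_one₀ (mul_nonneg (hp n).le (abs_nonneg _)) hn
  · intro n z hz
    have h1 := eigk (h := h) hf n hz
    have h2 : (z.im : ℂ) ≠ 0 := by exact_mod_cast (ne_of_gt (hz : 0 < z.im))
    have h3 : Pool.Agent.TH294.RS.hL h (fun n z => (f n z : ℂ)) n z =
        ((z.im : ℂ) ^ 2)⁻¹ * ((z.im : ℂ) ^ 2 *
          Pool.Agent.TH294.RS.hL h (fun n z => (f n z : ℂ)) n z) := by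
      rw [← mul_assoc, inv_mul_cancel₀ (pow_ne_zero 2 h2), one_mul]
    rw [h3, h1]
    ring

/-- **Joint moments of eigenfunctions with separated frequencies.** -/
theorem result : ∀ (m : ℕ) (a : Fin m → ℕ) (δ : ℝ), 0 < δ →
    ∀ (r r' : ℕ → ℝ) (f f' : ℕ → ℂ → ℝ) (s : Fin m → ℕ → ℝ) (g : Fin m → ℕ → ℂ → ℝ),
    (∀ n, 0 ≤ r n) → (∀ n, 0 ≤ r' n) → (∀ n, Eig (r n) (f n)) → (∀ n, Eig (r' n) (f' n)) →
    (∀ i n, Eig (s i n) (g i n)) → Tendsto (fun n => |r n - r' n|) atTop atTop →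
    (∀ i, ∀ᶠ n in atTop, |s i n| ≤ |r n - r' n| ^ (1 - δ)) →
    LocL2 f → LocL2 f' → (∀ i, LocL2 (g i)) →
    ∀ ψ : ℂ → ℝ, Test ψ → ∀ N : ℕ,
    Tendsto (fun n => |r n - r' n| ^ N *
      ∫ z, ψ z * (f n z * f' n z * ∏ i, g i n z ^ a i) / z.im ^ 2) atTop (𝓝 0) := by
  intro m a δ hδ r r' f f' s g hr hr' hf hf' hg ht hst hfb hfb' hgb ψ hψ N
  obtain ⟨d, hd⟩ : ∃ d : ℝ, d = min δ (1 / 2) := ⟨_, rfl⟩
  have d0 : 0 < d := by rw [hd]; positivity
  have d1 : d ≤ δ := by rw [hd]; exact min_le_left _ _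
  have d2 : d ≤ 1 / 2 := by rw [hd]; exact min_le_right _ _
  obtain ⟨t, htd⟩ : ∃ t : ℕ → ℝ, ∀ n, t n = |r n - r' n| := ⟨_, fun _ => rfl⟩
  simp only [← htd] at ht hst ⊢
  obtain ⟨τ, hτ⟩ : ∃ τ : ℕ → ℝ, ∀ n, τ n = max (t n) 1 := ⟨_, fun _ => rfl⟩
  have τ1 : ∀ n, 1 ≤ τ n := fun n => by rw [hτ]; exact le_max_right _ _
  have τ0 : ∀ n, 0 < τ n := fun n => lt_of_lt_of_le one_pos (τ1 n)
  have τt : ∀ᶠ n in atTop, τ n = t n := by
    filter_upwards [ht.eventually_ge_atTop 1] with n hn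
    rw [hτ, max_eq_left hn]
  have τl : Tendsto τ atTop atTop :=
    tendsto_atTop_mono (fun n => by rw [hτ]; exact le_max_left _ _) ht
  -- the low scale
  obtain ⟨h, hh'⟩ : ∃ h : ℕ → ℝ, ∀ n, h n = τ n ^ (-(1 - d)) := ⟨_, fun _ => rfl⟩
  have hp : ∀ n, 0 < h n := fun n => by rw [hh']; exact Real.rpow_pos_of_pos (τ0 n) _
  have hh : Tendsto h atTop (𝓝 0) := by
    have := (tendsto_rpow_neg_atTop (y := 1 - d) (by linarith)).comp τl
    exact this.congr fun n => (hh' n).symm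
  have hSK : ∀ i j, SK HP h 2 j (fun n z => (g i n z : ℂ)) := by
    intro i j
    refine mk_sk HPo hp hh (mk_eig hp hh (hg i) (hgb i) ?_ (j + 2))
    filter_upwards [hst i, τt] with n hn hτn
    have e1 : |s i n| ≤ τ n ^ (1 - d) := by
      rw [← hτn] at hn
      exact hn.trans (Real.rpow_le_rpow_of_exponent_le (τ1 n) (by linarith))
    calc h n * |s i n| ≤ h n * τ n ^ (1 - d) := mul_le_mul_of_nonneg_left e1 (hp n).le
      _ = 1 := by rw [hh', ← Real.rpow_add (τ0 n)]; simp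
  obtain ⟨M, hM⟩ : ∃ M : ℕ, M = ∑ i : Fin m, a i * 2 := ⟨_, rfl⟩
  have cψ : ContDiff ℝ ∞ (fun z => (ψ z : ℂ)) := Complex.ofRealCLM.contDiff.comp hψ.1
  have hG : ∀ j, SK HP h M j (fun n z => (ψ z : ℂ) * ∏ i, (g i n z : ℂ) ^ a i) := by
    intro j
    rw [hM]
    exact (SK.prod HPo hp hh Finset.univ (fun i => a i * 2) (fun i n z => (g i n z : ℂ) ^ a i)
      fun i _ => (hSK i j).pow HPo hp hh (a i)).smulc HPo hp hh cψ.contDiffOn
  -- the high scale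
  obtain ⟨κ, hκ⟩ : ∃ κ : ℕ → ℝ, ∀ n, κ n = (1 + r n + r' n)⁻¹ := ⟨_, fun _ => rfl⟩
  have R0 : ∀ n, 0 < 1 + r n + r' n := fun n => by have := hr n; have := hr' n; linarith
  have kp : ∀ n, 0 < κ n := fun n => by rw [hκ]; exact inv_pos.2 (R0 n)
  have k1 : ∀ n, κ n ≤ 1 := fun n => by
    rw [hκ]; exact inv_le_one_of_one_le₀ (by have := hr n; have := hr' n; linarith)
  have tR : ∀ n, t n ≤ r n + r' n := fun n => by
    rw [htd, abs_le]
    have := hr n; have := hr' n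
    constructor <;> linarith
  have kl : Tendsto κ atTop (𝓝 0) := by
    have h1 : Tendsto (fun n => 1 + r n + r' n) atTop atTop :=
      tendsto_atTop_mono (fun n => by have := tR n; linarith) ht
    exact (tendsto_inv_atTop_zero.comp h1).congr fun n => (hκ n).symm
  have kr : ∀ n, κ n * |r n| ≤ 1 := fun n => by
    rw [abs_of_nonneg (hr n), hκ, inv_mul_le_iff₀ (R0 n)]
    have := hr' n; linarith
  have kr' : ∀ n, κ n * |r' n| ≤ 1 := fun n => by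
    rw [abs_of_nonneg (hr' n), hκ, inv_mul_le_iff₀ (R0 n)]
    have := hr n; linarith
  have cb : ∀ {x : ℕ → ℝ}, (∀ n, κ n * |x n| ≤ 1) → ∀ n, |κ n ^ 2 * x n ^ 2| ≤ 1 := by
    intro x hx n
    have h4 : κ n ^ 2 * x n ^ 2 = (κ n * |x n|) ^ 2 := by rw [mul_pow, sq_abs]
    rw [abs_of_nonneg (by positivity), h4]
    exact pow_le_one₀ (mul_nonneg (kp n).le (abs_nonneg _)) (hx n)
  obtain ⟨k, hk⟩ : ∃ k : ℕ, ((N : ℝ) + M + 1) / d ≤ k := exists_nat_ge _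
  have hk' : (N : ℝ) + M + 1 ≤ d * k := by
    rw [div_le_iff₀ d0] at hk; linarith
  obtain ⟨C, hC⟩ := core2 kp k1 kl hp hh hψ.2.1 hψ.2.2
    (c := fun n => κ n ^ 2 * r n ^ 2) (c' := fun n => κ n ^ 2 * r' n ^ 2)
    (mk_eig kp kl hf hfb (Eventually.of_forall kr))
    (mk_eig kp kl hf' hfb' (Eventually.of_forall kr')) (cb kr) (cb kr')
    (fun n z hz => eigk hf n hz) (fun n z hz => eigk hf' n hz) k hG
    (fun n z hz => by
      show (ψ z : ℂ) * ∏ i, (g i n z : ℂ) ^ a i = 0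
      rw [image_eq_zero_of_notMem_tsupport hz]; simp) Md.base Md.base
  have key : ∀ᶠ n in atTop, ‖t n ^ N * ∫ z, ψ z * (f n z * f' n z * ∏ i, g i n z ^ a i) /
      z.im ^ 2‖ ≤ (C * 2 ^ k) * (τ n)⁻¹ := by
    filter_upwards [hC, τt] with n hn hτn
    have e1 : JJ (fun n z => (ψ z : ℂ) * ∏ i, (g i n z : ℂ) ^ a i) (fun n z => (f n z : ℂ))
        (fun n z => (f' n z : ℂ)) n =
        ((∫ z, ψ z * (f n z * f' n z * ∏ i, g i n z ^ a i) / z.im ^ 2 : ℝ) : ℂ) := by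
      rw [← integral_complex_ofReal]
      unfold JJ
      congr 1; funext z
      push_cast; ring
    rw [e1, Complex.norm_real] at hn
    obtain ⟨J, hJ⟩ : ∃ J : ℝ, J = ∫ z, ψ z * (f n z * f' n z * ∏ i, g i n z ^ a i) / z.im ^ 2 :=
      ⟨_, rfl⟩
    rw [← hJ] at hn ⊢
    rw [← hτn, norm_mul, norm_pow, Real.norm_of_nonneg (τ0 n).le]
    have e2 : τ n ^ d / 2 ≤ |h n * (κ n ^ 2 * r n ^ 2 - κ n ^ 2 * r' n ^ 2) / κ n| := by
      have kz := (kp n).ne'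
      have a1 : h n * (κ n ^ 2 * r n ^ 2 - κ n ^ 2 * r' n ^ 2) / κ n =
          h n * (r n - r' n) * (κ n * (r n + r' n)) := by
        field_simp
        ring
      have a2 : 1 / 2 ≤ κ n * (r n + r' n) := by
        rw [hκ, inv_mul_eq_div, le_div_iff₀ (R0 n)]
        have b1 := tR n
        have b2 := τ1 n
        rw [hτn] at b2
        linarith
      rw [a1, abs_mul, abs_mul, abs_of_pos (hp n), ← htd, ← hτn,
        abs_of_nonneg (le_trans (by norm_num) a2)]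
      have a3 : h n * τ n = τ n ^ d := by
        have : τ n = τ n ^ (1 : ℝ) := (Real.rpow_one _).symm
        calc h n * τ n = τ n ^ (-(1 - d)) * τ n ^ (1 : ℝ) := by rw [← this, hh']
          _ = τ n ^ d := by rw [← Real.rpow_add (τ0 n)]; congr 1; ring
      rw [a3]
      have a4 : 0 ≤ τ n ^ d := Real.rpow_nonneg (τ0 n).le _
      nlinarith
    have e3 : τ n ^ (-(M : ℝ)) ≤ h n ^ M := by
      rw [hh', ← Real.rpow_natCast, ← Real.rpow_mul (τ0 n).le]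
      refine Real.rpow_le_rpow_of_exponent_le (τ1 n) ?_
      have : (0 : ℝ) ≤ M := Nat.cast_nonneg M
      nlinarith
    have e4 : τ n ^ N * τ n ≤ 2 ^ k *
        (|h n * (κ n ^ 2 * r n ^ 2 - κ n ^ 2 * r' n ^ 2) / κ n| ^ k * h n ^ M) := by
      calc τ n ^ N * τ n = τ n ^ ((N : ℝ) + 1) := by
            rw [Real.rpow_add (τ0 n), Real.rpow_natCast, Real.rpow_one]
        _ ≤ τ n ^ (d * k + -(M : ℝ)) :=
            Real.rpow_le_rpow_of_exponent_le (τ1 n) (by linarith)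
        _ = (τ n ^ d) ^ k * τ n ^ (-(M : ℝ)) := by
            rw [Real.rpow_add (τ0 n), ← Real.rpow_natCast (τ n ^ d) k,
              ← Real.rpow_mul (τ0 n).le]
        _ = 2 ^ k * ((τ n ^ d / 2) ^ k * τ n ^ (-(M : ℝ))) := by
            rw [div_pow]; field_simp
        _ ≤ 2 ^ k * (|h n * (κ n ^ 2 * r n ^ 2 - κ n ^ 2 * r' n ^ 2) / κ n| ^ k * h n ^ M) := by
            refine mul_le_mul_of_nonneg_left ?_ (by positivity)
            refine mul_le_mul ?_ e3 (Real.rpow_nonneg (τ0 n).le _) (by positivity)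
            exact pow_le_pow_left₀ (div_nonneg (Real.rpow_nonneg (τ0 n).le _) zero_le_two) e2 k
    have e5 : ‖J‖ * (τ n ^ N * τ n) ≤ C * 2 ^ k := by
      have := mul_le_mul_of_nonneg_left e4 (norm_nonneg J)
      have h2 : (0 : ℝ) ≤ 2 ^ k := by positivity
      nlinarith [mul_le_mul_of_nonneg_right hn h2]
    rw [← div_eq_mul_inv, le_div_iff₀ (τ0 n)]
    linarith
  refine squeeze_zero_norm' key ?_
  have := (tendsto_inv_atTop_zero.comp τl).const_mul (C * 2 ^ k)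
  simpa using this

end

end Pool.Agent.Results.MP_a28cf0_nt.SeparatedFrequencies
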