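import Pool.Agent.TH294.RG.SpecH
import Pool.Agent.TH294.RG.Js4

/-!
# Joint moments `∫ ψ f³ g dμ` with a factor `g` of much lower frequency (MP_a28cf0_nt)

The plane is `ℂ`, with the upper half plane `HH` and `dμ = dx dy / y²`. `dx f z`, `dy f z` are the
partial derivatives `fderiv ℝ f z 1`, `fderiv ℝ f z I`; `TF U φ` says that `φ : ℂ → ℝ` is smooth
with compact support contained in `U`.
-/

set_option autoImplicit false
open MeasureTheory Filter Topology Complex
open scoped ContDiff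

namespace Pool.Agent.Results.MP_a28cf0_nt.ThirdPowerTimesSlow

open Pool.Agent.W745.RW

/-- the open upper half plane -/
def HH : Set ℂ := {z | 0 < z.im}

/-- the eigenvalue `1/4 + t²` -/
noncomputable def ev (t : ℝ) : ℝ := 1 / 4 + t ^ 2

/-- `f` is a smooth real solution of `-y² (∂x² + ∂y²) f = (1/4 + t²) f` on the upper half plane -/
def Eig (t : ℝ) (f : ℂ → ℝ) : Prop :=
  ContDiffOn ℝ ∞ f HH ∧ ∀ z ∈ HH, -(z.im ^ 2 * (dx (dx f) z + dy (dy f) z)) = ev t * f z

/-- the operator `f ↦ lam^{-1/2} y (∂x f - i ∂y f)` -/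
noncomputable def RO (lam : ℝ) (f : ℂ → ℂ) (z : ℂ) : ℂ :=
  ((z.im / √lam : ℝ) : ℂ) * (dx f z - I * dy f z)

/-- quantum unique ergodicity in microlocal form: `∫ φ f (RO^k f) dμ → ∫ φ dμ` for `k = 0`, and
`→ 0` for `k ≥ 1` -/
def QUE (t : ℕ → ℝ) (f : ℕ → ℂ → ℝ) : Prop :=
  ∀ φ, TF HH φ → ∀ k : ℕ, Tendsto (fun n => ∫ z, ((φ z / z.im ^ 2 : ℝ) : ℂ) *
    ((f n z : ℂ) * (RO (ev (t n)))^[k] (fun w => (f n w : ℂ)) z)) atTop
    (𝓝 (if k = 0 then ((∫ z, φ z / z.im ^ 2 : ℝ) : ℂ) else 0))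

/-- `W k = RO^k f` for `k ≥ 0` and `W k = (-1)^k conj (RO^|k| f)` for `k < 0`; `W 0 = f` -/
noncomputable def W (lam : ℝ) (f : ℂ → ℝ) : ℤ → ℂ → ℂ
  | Int.ofNat k => (RO lam)^[k] (fun w => (f w : ℂ))
  | Int.negSucc k => fun z => (-1) ^ (k + 1) *
      (starRingEnd ℂ) ((RO lam)^[k + 1] (fun w => (f w : ℂ)) z)

/-- the normalising factor `1 + ∫_K f⁴ dμ` -/
noncomputable def nrm (K : Set ℂ) (f : ℂ → ℝ) : ℝ := 1 + ∫ z in K, f z ^ 4 / z.im ^ 2

lemma ev_pos (t : ℝ) : 0 < ev t := by unfold ev; positivity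

lemma HHo : IsOpen HH := isOpen_lt continuous_const continuous_im

lemma him : ContDiff ℝ ∞ (fun z : ℂ => z.im) := imCLM.contDiff

lemma inv_sqrt_sq {x : ℝ} (hx : 0 < x) : (1 / √x) ^ 2 = 1 / x := by
  rw [div_pow, Real.sq_sqrt hx.le, one_pow]

lemma ev_lim {t : ℕ → ℝ} (ht : Tendsto t atTop atTop) :
    Tendsto (fun n => 1 / √(ev (t n))) atTop (𝓝 0) := by
  have h1 : Tendsto (fun n => ev (t n)) atTop atTop :=
    tendsto_atTop_add_const_left _ _ ((tendsto_pow_atTop two_ne_zero).comp ht)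
  have h2 : Tendsto (fun n => √(ev (t n))) atTop atTop := Real.tendsto_sqrt_atTop.comp h1
  exact (h2.inv_tendsto_atTop).congr (fun n => by simp [one_div])

lemma raw {t : ℕ → ℝ} (ht : Tendsto t atTop atTop) {f : ℕ → ℂ → ℝ}
    (hf : ∀ n, Eig (t n) (f n)) (hqe : QUE t f) :
    Pool.Agent.TH294.RG.RawG HH (fun z => z.im) (fun n => 1 / √(ev (t n))) f
      (Pool.Agent.TH294.RG.MM (fun _ => 1) Pool.Agent.TH294.RG.ea
        Pool.Agent.TH294.RG.unif) := by
  have hRD : ∀ n, RO (ev (t n)) =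
      Pool.Agent.TH294.RS.DP (fun z => z.im) (1 / √(ev (t n))) := by
    intro n
    funext g z
    simp only [RO, Pool.Agent.TH294.RS.DP, Pool.Agent.TH294.RS.dd]
    push_cast
    ring
  refine ⟨fun n => ?_, ev_lim ht, him.contDiffOn, fun z hz => hz, fun n => (hf n).1,
    fun n z hz => ?_, fun φ hφ k => ?_⟩
  · have := ev_pos (t n)
    positivity
  · have h1 := (hf n).2 z hz
    have h2 := inv_sqrt_sq (ev_pos (t n))
    show (1 / √(ev (t n))) ^ 2 * (z.im ^ 2 * (dx (dx (f n)) z + dy (dy (f n)) z)) +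
      f n z = 0
    rw [h2]
    have h3 : z.im ^ 2 * (dx (dx (f n)) z + dy (dy (f n)) z) = - (ev (t n) * f n z) := by
      linarith
    have h4 := (ev_pos (t n)).ne'
    rw [h3]
    field_simp
    ring
  · have hφ' := Pool.Agent.TH294.RS.TF.mulc HHo hφ (him.pow 2).contDiffOn
    have h1 := hqe _ hφ' k
    have e : ∀ z : ℂ, φ z * z.im ^ 2 / z.im ^ 2 = φ z := by
      intro z
      by_cases hz : z ∈ HH
      · have : z.im ≠ 0 := ne_of_gt hz
        field_simp
      · rw [Pool.Agent.TH294.RS.TF.zero hφ hz]; simp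
    simp only [e] at h1
    have e2 : ∫ z, (φ z : ℂ) * Pool.Agent.TH294.RG.MM (fun _ => 1) Pool.Agent.TH294.RG.ea
        Pool.Agent.TH294.RG.unif k z = if k = 0 then ((∫ z, φ z : ℝ) : ℂ) else 0 := by
      simp only [Pool.Agent.TH294.RG.MM_unif]
      split_ifs with hk
      · simp only [mul_one]
        exact integral_complex_ofReal
      · simp
    rw [e2]
    refine h1.congr fun n => ?_
    rw [hRD n]

lemma cmp_bd {K : Set ℂ} (hK : IsCompact K) (hKH : K ⊆ HH) : ∃ C : ℝ, 0 < C ∧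
    ∀ F : ℂ → ℝ, ContinuousOn F K → (∀ z, 0 ≤ F z) →
      ∫ z in K, F z ≤ C * ∫ z in K, F z / z.im ^ 2 := by
  obtain ⟨C, hC⟩ := hK.exists_bound_of_continuousOn
    ((him.continuous.pow 2).continuousOn (s := K))
  refine ⟨|C| + 1, by positivity, fun F hF hF0 => ?_⟩
  have i1 : IntegrableOn F K := hF.integrableOn_compact hK
  have i2 : IntegrableOn (fun z => (|C| + 1) * (F z / z.im ^ 2)) K := by
    refine ContinuousOn.integrableOn_compact hK ?_
    refine continuousOn_const.mul (hF.div (him.continuous.pow 2).continuousOn fun z hz => ?_)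
    have : 0 < z.im := hKH hz
    positivity
  rw [← integral_const_mul]
  refine setIntegral_mono_on i1 i2 hK.measurableSet fun z hz => ?_
  have h3 : 0 < z.im := hKH hz
  have h4 : z.im ^ 2 ≤ |C| + 1 := by
    have h7 : ‖z.im ^ 2‖ ≤ C := hC z hz
    rw [Real.norm_eq_abs, abs_of_nonneg (pow_nonneg h3.le 2)] at h7
    linarith [le_abs_self C]
  rw [mul_div_assoc', le_div_iff₀ (pow_pos h3 2), mul_comm]
  exact mul_le_mul_of_nonneg_right h4 (hF0 z)

lemma nrm_pos (K : Set ℂ) (f : ℂ → ℝ) : 1 ≤ nrm K f := by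
  have : 0 ≤ ∫ z in K, f z ^ 4 / z.im ^ 2 := integral_nonneg fun z => by positivity
  unfold nrm; linarith

lemma nrm_cmp {K : Set ℂ} (hK : IsCompact K) (hKH : K ⊆ HH) : ∃ C : ℝ, 0 < C ∧
    ∀ f : ℂ → ℝ, ContDiffOn ℝ ∞ f HH → 1 + ∫ z in K, f z ^ 4 ≤ C * nrm K f := by
  obtain ⟨C, hC0, hC⟩ := cmp_bd hK hKH
  refine ⟨1 + C, by linarith, fun f hf => ?_⟩
  have h1 := hC (fun z => f z ^ 4) ((hf.continuousOn.mono hKH).pow 4) (fun z => by positivity)
  have h2 : 0 ≤ ∫ z in K, f z ^ 4 / z.im ^ 2 := integral_nonneg fun z => by positivity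
  unfold nrm
  nlinarith

lemma ratio (t s : ℝ) : ((1 / √(ev t)) / (1 / √(ev s))) ^ 2 = ev s / ev t := by
  have h1 := ev_pos t
  have h2 := ev_pos s
  rw [div_pow, inv_sqrt_sq h1, inv_sqrt_sq h2]
  field_simp

lemma tf_div {K : Set ℂ} (hKH : K ⊆ HH) {ψ : ℂ → ℝ} (hψ : TF (interior K) ψ) :
    TF (interior K) (fun z => ψ z * (z.im ^ 2)⁻¹) := by
  have hi : ContDiffOn ℝ ∞ (fun z : ℂ => (z.im ^ 2)⁻¹) HH :=
    (him.pow 2).contDiffOn.inv fun z hz => by
      have : 0 < z.im := hz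
      positivity
  exact Pool.Agent.TH294.RS.TF.mulc isOpen_interior hψ (hi.mono (interior_subset.trans hKH))

lemma mem1 (K : Set ℂ) (hK : IsCompact K) : MemLp (fun _ : ℂ => (1 : ℝ)) 2
    (volume.restrict K) := by
  have : IsFiniteMeasure (volume.restrict K) := ⟨by
    rw [Measure.restrict_apply MeasurableSet.univ, Set.univ_inter]
    exact hK.measure_lt_top⟩
  exact memLp_const 1

lemma par_unif : Pool.Agent.TH294.RG.par Pool.Agent.TH294.RG.ea Pool.Agent.TH294.RG.mu0 = 0 := by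
  unfold Pool.Agent.TH294.RG.par
  rw [measureReal_def, Measure.measure_prod_null (Pool.Agent.TH294.RG.PS_meas
    Pool.Agent.TH294.RG.ea_meas) |>.2]
  · rfl
  · refine ae_of_all _ fun x => ?_
    rw [Pool.Agent.TH294.RG.ea_par]
    have hc : (Prod.mk x ⁻¹' {p : ℝ × ℝ | Real.sin (p.1 - p.2) = 0}).Countable := by
      refine (Set.countable_range (fun k : ℤ => x - k * Real.pi)).mono ?_
      intro y hy
      have h1 : Real.sin (x - y) = 0 := hy
      obtain ⟨k, hk⟩ := Real.sin_eq_zero_iff.1 h1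
      exact ⟨k, by simp only; linarith⟩
    show Pool.Agent.TH294.RG.mu0 _ = 0
    unfold Pool.Agent.TH294.RG.mu0
    rw [Measure.smul_apply, hc.measure_zero, smul_zero]

variable {t s s1 s2 s3 : ℕ → ℝ} {f g g1 g2 g3 : ℕ → ℂ → ℝ} {K : Set ℂ} {ψ : ℂ → ℝ}

lemma ratio_lim (hr : Tendsto (fun n => ev (s n) / ev (t n)) atTop (𝓝 0)) :
    Tendsto (fun n => (1 / √(ev (t n))) / (1 / √(ev (s n)))) atTop (𝓝 0) := by
  have h1 := (Real.continuous_sqrt.tendsto _).comp hr
  rw [Real.sqrt_zero] at h1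
  refine h1.congr fun n => ?_
  simp only [Function.comp_def]
  rw [← ratio, Real.sqrt_sq]
  positivity

/-- the scaled eigenfunctions of much lower frequency vary slowly -/
lemma slowg (hs : Tendsto s atTop atTop)
    (hr : Tendsto (fun n => ev (s n) / ev (t n)) atTop (𝓝 0)) (hg : ∀ n, Eig (s n) (g n))
    (hK : IsCompact K) (hKH : K ⊆ HH) : ∃ c : ℕ → ℝ, (∀ n, 0 < c n) ∧
    (∀ n, c n ^ 4 = (nrm K (g n))⁻¹) ∧
    Pool.Agent.TH294.RG.SG (interior K) (fun z => z.im) (fun n => 1 / √(ev (t n)))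
      (fun n z => ((c n * g n z : ℝ) : ℂ)) := by
  have hKi : interior K ⊆ HH := interior_subset.trans hKH
  obtain ⟨c, cp, -, c4⟩ := Pool.Agent.TH294.RG.exists_c (T := fun n => nrm K (g n))
    (fun n => nrm_pos K (g n))
  refine ⟨c, cp, c4, ?_⟩
  have sm : ∀ n, ContDiffOn ℝ ∞ (fun z => c n * g n z) (interior K) := fun n =>
    contDiffOn_const.mul ((hg n).1.mono hKi)
  obtain ⟨C, hC0, hC⟩ := nrm_cmp hK hKH
  refine Pool.Agent.TH294.RG.SG.sol isOpen_interior him.contDiffOn (fun z hz => hKi hz)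
    (k := fun n => 1 / √(ev (s n))) (fun n => by have := ev_pos (s n); positivity) (ev_lim hs)
    (ratio_lim hr) (v := fun n z => c n * g n z)
    ⟨fun n => Pool.Agent.TH294.RS.cxa (sm n), fun K' _ hKB => ⟨C, Eventually.of_forall
      fun n => ?_⟩⟩ (fun n z hz => ?_)
  · have N1 := nrm_pos K (g n)
    have e : ∀ z, ‖((c n * g n z : ℝ) : ℂ)‖ ^ 4 = (nrm K (g n))⁻¹ * g n z ^ 4 := fun z => by
      rw [norm_real, Real.norm_eq_abs, Even.pow_abs (by decide), mul_pow, c4]
    simp only [e]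
    rw [integral_const_mul, inv_mul_le_iff₀ (by linarith)]
    have c0 : ContinuousOn (fun z => g n z ^ 4) K := ((hg n).1.continuousOn.mono hKH).pow 4
    have h1 : ∫ z in K', g n z ^ 4 ≤ ∫ z in K, g n z ^ 4 := by
      refine setIntegral_mono_set (c0.integrableOn_compact hK)
        (ae_of_all _ fun z => by positivity) ?_
      exact (hKB.trans interior_subset).eventuallyLE
    have h2 := hC (g n) (hg n).1
    rw [mul_comm (nrm K (g n))]
    linarith
  · rw [Pool.Agent.TH294.RS.lap_re isOpen_interior (sm n) hz]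
    have hz' : z ∈ HH := hKi hz
    have h1 := (hg n).2 z hz'
    have h2 := inv_sqrt_sq (ev_pos (s n))
    have e1 : lap (fun z => c n * g n z) z = c n * lap (g n) z := by
      have dx1 : ∀ v : ℂ, ∀ w ∈ HH, fderiv ℝ (fun z => c n * g n z) w v =
          c n * fderiv ℝ (g n) w v := by
        intro v w hw
        have hd : DifferentiableAt ℝ (g n) w :=
          ((hg n).1.contDiffAt (HHo.mem_nhds hw)).differentiableAt (by simp)
        rw [fderiv_const_mul hd]
        rfl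
      have dx2 : ∀ v : ℂ, fderiv ℝ (fun w => fderiv ℝ (fun z => c n * g n z) w v) z v =
          c n * fderiv ℝ (fun w => fderiv ℝ (g n) w v) z v := by
        intro v
        have e : (fun w => fderiv ℝ (fun z => c n * g n z) w v) =ᶠ[𝓝 z]
            fun w => c n * fderiv ℝ (g n) w v := by
          filter_upwards [HHo.mem_nhds hz'] with w hw using dx1 v w hw
        rw [e.fderiv_eq]
        have hd : DifferentiableAt ℝ (fun w => fderiv ℝ (g n) w v) z := by
          have h3 : ContDiffOn ℝ ∞ (fun w => fderiv ℝ (g n) w v) HH :=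
            ((hg n).1.fderiv_of_isOpen HHo (by simp)).clm_apply contDiffOn_const
          exact (h3.contDiffAt (HHo.mem_nhds hz')).differentiableAt (by simp)
        rw [fderiv_const_mul hd]
        rfl
      show fderiv ℝ (fun w => fderiv ℝ (fun z => c n * g n z) w 1) z 1 +
        fderiv ℝ (fun w => fderiv ℝ (fun z => c n * g n z) w I) z I =
        c n * (fderiv ℝ (fun w => fderiv ℝ (g n) w 1) z 1 +
          fderiv ℝ (fun w => fderiv ℝ (g n) w I) z I)
      rw [dx2, dx2]; ring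
    have h3 : z.im ^ 2 * lap (g n) z = - (ev (s n) * g n z) := by
      show z.im ^ 2 * (dx (dx (g n)) z + dy (dy (g n)) z) = _
      linarith
    have h4 : (1 / √(ev (s n))) ^ 2 * (z.im ^ 2 * lap (fun z => c n * g n z) z) =
        - (c n * g n z) := by
      rw [h2, e1]
      have := (ev_pos (s n)).ne'
      have h5 : z.im ^ 2 * (c n * lap (g n) z) = c n * - (ev (s n) * g n z) := by
        rw [← h3]; ring
      rw [h5]
      field_simp
    exact_mod_cast h4

lemma RD (lam : ℝ) : RO lam = Pool.Agent.TH294.RS.DP (fun z => z.im) (1 / √lam) := by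
  funext g z
  simp only [RO, Pool.Agent.TH294.RS.DP, Pool.Agent.TH294.RS.dd]
  push_cast
  ring

lemma W_eq (t : ℕ → ℝ) (f : ℕ → ℂ → ℝ) (n : ℕ) (k : ℤ) : W (ev (t n)) (f n) k =
    Pool.Agent.TH294.RS.ww (fun z => z.im) (fun n => 1 / √(ev (t n)))
      (fun n z => (f n z : ℂ)) k n := by
  cases k with
  | ofNat k =>
    show (RO (ev (t n)))^[k] _ = _
    rw [RD]; rfl
  | negSucc k =>
    show (fun z => (-1) ^ (k + 1) * (starRingEnd ℂ) ((RO (ev (t n)))^[k + 1] _ z)) = _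
    rw [RD]; rfl

/-- **Result.** Let `f n` be real eigenfunctions of the hyperbolic Laplacian on the upper half plane
with spectral parameters `t n → ∞` that satisfy microlocal quantum unique ergodicity, and `g n` real
eigenfunctions with spectral parameters `s n → ∞` such that `ev (s n) / ev (t n) → 0`; they need
not be normalised. Let `K` be compact, `ψ` a test function supported in the interior of `K`, and
`nrm K f = 1 + ∫_K f⁴ dμ`. Then for all integers `i`, `j`, `l` the moment `∫ ψ W_i W_j W_l g dμ` of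
the normalised derivatives `W_k` of `f` (in particular `∫ ψ f³ g dμ`) is
`o(nrm K f ^ (3/4) * nrm K g ^ (1/4))`. -/
theorem result (t s : ℕ → ℝ) (f g : ℕ → ℂ → ℝ)
    (ht : Tendsto t atTop atTop) (hf : ∀ n, Eig (t n) (f n)) (hqe : QUE t f)
    (hs : Tendsto s atTop atTop) (hg : ∀ n, Eig (s n) (g n))
    (hr : Tendsto (fun n => ev (s n) / ev (t n)) atTop (𝓝 0))
    (K : Set ℂ) (hK : IsCompact K) (hKH : K ⊆ HH) (ψ : ℂ → ℝ) (hψ : TF (interior K) ψ)
    (i j l : ℤ) :
    Tendsto (fun n => ‖∫ z, ((ψ z / z.im ^ 2 : ℝ) : ℂ) * (W (ev (t n)) (f n) i z *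
      W (ev (t n)) (f n) j z * W (ev (t n)) (f n) l z * (g n z : ℂ))‖ ^ 4 /
        (nrm K (f n) ^ 3 * nrm K (g n))) atTop (𝓝 0) := by
  obtain ⟨C, hC0, hC⟩ := nrm_cmp hK hKH
  obtain ⟨c, cp, c4, S1⟩ := slowg hs hr hg hK hKH
  have key := Pool.Agent.TH294.RG.slow_cube (fun K' hK' _ => mem1 K' hK')
    (ae_of_all _ fun z => by
      simp only [Pool.Agent.TH294.RG.unif, ProbabilityTheory.Kernel.const_apply]
      exact par_unif) (raw ht hf hqe) hK hKH S1 (tf_div hKH hψ) i j l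
  have k2 := key.const_mul (C ^ 3)
  rw [mul_zero] at k2
  refine squeeze_zero (fun n => ?_) (fun n => ?_) k2
  · have := nrm_pos K (f n)
    have := nrm_pos K (g n)
    positivity
  · have N1 := nrm_pos K (g n)
    have N2 := nrm_pos K (f n)
    have T1 := Pool.Agent.TH294.RG.T_one f K n
    obtain ⟨X, hX⟩ : ∃ X : ℂ, X = ∫ z, ((ψ z / z.im ^ 2 : ℝ) : ℂ) * (W (ev (t n)) (f n) i z *
      W (ev (t n)) (f n) j z * W (ev (t n)) (f n) l z * (g n z : ℂ)) := ⟨_, rfl⟩
    have e1 : ∫ z, ((ψ z * (z.im ^ 2)⁻¹ : ℝ) : ℂ) * (Pool.Agent.TH294.RS.ww (fun z => z.im)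
        (fun n => 1 / √(ev (t n))) (fun n z => (f n z : ℂ)) i n z *
        Pool.Agent.TH294.RS.ww (fun z => z.im)
        (fun n => 1 / √(ev (t n))) (fun n z => (f n z : ℂ)) j n z *
        (Pool.Agent.TH294.RS.ww (fun z => z.im)
        (fun n => 1 / √(ev (t n))) (fun n z => (f n z : ℂ)) l n z *
          ((c n * g n z : ℝ) : ℂ))) = ((c n : ℝ) : ℂ) * X := by
      rw [hX, ← integral_const_mul]
      congr 1; funext z
      rw [W_eq, W_eq, W_eq]
      push_cast; ring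
    rw [e1, ← hX, norm_mul, norm_real, Real.norm_eq_abs, abs_of_pos (cp n), mul_pow, c4]
    have h1 : (1 + ∫ z in K, f n z ^ 4) ^ 3 ≤ (C * nrm K (f n)) ^ 3 :=
      pow_le_pow_left₀ (by linarith) (hC (f n) (hf n).1) 3
    have Tp : 0 < (1 + ∫ z in K, f n z ^ 4) ^ 3 := by positivity
    have x4 : 0 ≤ ‖X‖ ^ 4 := by positivity
    calc ‖X‖ ^ 4 / (nrm K (f n) ^ 3 * nrm K (g n))
        = C ^ 3 * ((nrm K (g n))⁻¹ * ‖X‖ ^ 4 / (C * nrm K (f n)) ^ 3) := by field_simp
      _ ≤ C ^ 3 * ((nrm K (g n))⁻¹ * ‖X‖ ^ 4 / (1 + ∫ z in K, f n z ^ 4) ^ 3) := by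
          refine mul_le_mul_of_nonneg_left ?_ (by positivity)
          exact div_le_div_of_nonneg_left (by positivity) Tp h1

end Pool.Agent.Results.MP_a28cf0_nt.ThirdPowerTimesSlow
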